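import Mathlib
import Pool.Agent.H51.TA.Asym

/-!
# Exponential moments of the number of contractible loops around a gap

`E[τ ^ m] * P(m = 0) ^ (τ - 1) ≤ 1` for `τ = K + 1`, hence `E[(K + 1) ^ m] ≤ C n ^ (5 K / 48)`.
-/

set_option autoImplicit false

open Filter Topology

namespace Pool.Agent.H18.Q1

open Pool.Agent.H65.Perc
open Pool.Agent.H51.TA
open Pool.Agent.H23.BO (pascal)
open Pool.Agent.H13.Pascal (lam lam_pos DD DD_eq DD_pascal)

/-- `E[τ ^ m]` -/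
noncomputable def EM (n : ℕ) [NeZero n] (Ψ : (PX (2 * n) → ℝ) →ₗ[ℝ] ℝ) (g : ℤ) (τ : ℝ) : ℝ :=
  Ψ (fun x => Ψ fun y => τ ^ mc (toPat x).t (toPat y).t g)

theorem norm_sq_q (q : ℂ) (hq : q ^ 2 - q + 1 = 0) (l : ℝ) : ‖q + (l : ℂ)‖ ^ 2 = l ^ 2 + l + 1 := by
  have h1 := congrArg Complex.re hq
  have h2 := congrArg Complex.im hq
  simp only [Complex.add_re, Complex.sub_re, Complex.mul_re, Complex.mul_im, Complex.add_im,
    Complex.sub_im, Complex.one_re, Complex.one_im, pow_two,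
    Complex.zero_re, Complex.zero_im] at h1 h2
  have him : q.im ≠ 0 := by
    intro h0
    rw [h0] at h1
    nlinarith [sq_nonneg (q.re - 1 / 2)]
  have hre : q.re = 1 / 2 := by
    have : q.im * (2 * q.re - 1) = 0 := by linear_combination h2
    rcases mul_eq_zero.1 this with h | h
    · exact absurd h him
    · linarith
  rw [Complex.sq_norm, Complex.normSq_apply]
  simp only [Complex.add_re, Complex.add_im, Complex.ofReal_re, Complex.ofReal_im, add_zero]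
  rw [hre] at h1 ⊢
  nlinarith

/-- the square of the moment as a product -/
theorem EM_sq (n : ℕ) [NeZero n] (Ψ : (PX (2 * n) → ℝ) →ₗ[ℝ] ℝ)
    (hlim : ∀ f : PX (2 * n) → ℝ, ∀ x, Tendsto (fun M : ℕ => (SX (1 / 2) ^ M) f x) atTop (𝓝 (Ψ f)))
    (g : ℤ) (τ : ℝ) (w : ℂ) (hw : w ≠ 0) (hτ : (τ : ℂ) = w + w⁻¹) :
    EM n Ψ g τ ^ 2 * ∏ k : Fin (2 * n), ((lam (2 * n) k) ^ 2 + lam (2 * n) k + 1) =
      |∏ k : Fin (2 * n), ((lam (2 * n) k) ^ 2 + τ * lam (2 * n) k + 1)| := by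
  obtain ⟨q, hq⟩ := exists_q
  have h1 := law n Ψ hlim g τ hw hτ hq
  have h2 := law n Ψ hlim g τ (inv_ne_zero hw) (by rw [inv_inv, hτ, add_comm]) hq
  have hq0 : gdet n q ≠ 0 := gdet_ne_zero n hq
  have h3 : ((EM n Ψ g τ : ℝ) : ℂ) ^ 2 * gdet n q ^ 2 = gdet n w * gdet n w⁻¹ := by
    unfold EM
    rw [sq, sq]
    nth_rewrite 1 [h1]
    rw [h2]
    field_simp
  have h4 : gdet n w * gdet n w⁻¹ =
      ((∏ k : Fin (2 * n), ((lam (2 * n) k) ^ 2 + τ * lam (2 * n) k + 1) : ℝ) : ℂ) := by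
    rw [gdet, gdet, ← DD_pascal, ← DD_pascal, DD_eq, DD_eq, mul_mul_mul_comm,
      ← Finset.prod_mul_distrib]
    have h5 : (w ^ n)⁻¹ * ((w⁻¹) ^ n)⁻¹ = 1 := by
      rw [inv_pow, inv_inv]
      exact inv_mul_cancel₀ (pow_ne_zero _ hw)
    rw [h5, one_mul]
    push_cast
    refine Finset.prod_congr rfl fun k _ => ?_
    rw [hτ]
    have : w * w⁻¹ = 1 := mul_inv_cancel₀ hw
    linear_combination this
  have h6 : ‖gdet n q‖ ^ 2 = ∏ k : Fin (2 * n), ((lam (2 * n) k) ^ 2 + lam (2 * n) k + 1) := by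
    rw [gdet, ← DD_pascal, DD_eq, norm_mul, norm_inv, norm_pow, norm_q hq, one_pow, inv_one,
      one_mul, norm_prod, ← Finset.prod_pow]
    exact Finset.prod_congr rfl fun k _ => norm_sq_q q hq _
  have h7 := congrArg norm h3
  rw [h4, norm_mul, norm_pow, norm_pow, h6, Complex.norm_real, Complex.norm_real,
    Real.norm_eq_abs, Real.norm_eq_abs, sq_abs] at h7
  exact h7

/-- **the moments of the number of loops are controlled by the one-arm probability** -/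
theorem EM_mul_le (n : ℕ) [NeZero n] (Ψ : (PX (2 * n) → ℝ) →ₗ[ℝ] ℝ)
    (hlim : ∀ f : PX (2 * n) → ℝ, ∀ x, Tendsto (fun M : ℕ => (SX (1 / 2) ^ M) f x) atTop (𝓝 (Ψ f)))
    (g : ℤ) (K : ℕ) (hK : 1 ≤ K) :
    EM n Ψ g (K + 1) * EM n Ψ g 0 ^ K ≤ 1 := by
  classical
  set Q : ℝ := ∏ k : Fin (2 * n), ((lam (2 * n) k) ^ 2 + lam (2 * n) k + 1) with hQ
  set Z : ℝ := ∏ k : Fin (2 * n), ((lam (2 * n) k) ^ 2 + 1) with hZ
  set W : ℝ := ∏ k : Fin (2 * n), ((lam (2 * n) k) ^ 2 + (K + 1) * lam (2 * n) k + 1) with hW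
  have hl : ∀ k : Fin (2 * n), 0 < lam (2 * n) k := fun k => lam_pos _ k
  have hQ0 : 0 < Q := Finset.prod_pos fun k _ => by have := hl k; positivity
  have hZ0 : 0 < Z := Finset.prod_pos fun k _ => by have := hl k; positivity
  have hW0 : 0 < W := Finset.prod_pos fun k _ => by have := hl k; positivity
  have e0 : EM n Ψ g 0 ^ 2 * Q = Z := by
    have h := EM_sq n Ψ hlim g 0 Complex.I Complex.I_ne_zero (by rw [Complex.inv_I]; simp)
    rw [h]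
    have : (∏ k : Fin (2 * n), ((lam (2 * n) k) ^ 2 + 0 * lam (2 * n) k + 1)) = Z := by
      rw [hZ]; exact Finset.prod_congr rfl fun k _ => by ring
    rw [this, abs_of_pos hZ0]
  have e1 : EM n Ψ g (K + 1) ^ 2 * Q = W := by
    have hK1 : (1 : ℝ) ≤ K := by exact_mod_cast hK
    set s : ℝ := Real.sqrt (((K : ℝ) + 1) ^ 2 - 4) with hs
    have hs2 : s ^ 2 = ((K : ℝ) + 1) ^ 2 - 4 := by
      rw [hs, Real.sq_sqrt]; nlinarith
    have hs0 : 0 ≤ s := Real.sqrt_nonneg _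
    set w : ℝ := ((K : ℝ) + 1 + s) / 2 with hw
    have hwpos : 0 < w := by positivity
    have hw2 : w ^ 2 + 1 = ((K : ℝ) + 1) * w := by
      rw [hw]; nlinarith
    have hτ : (((K : ℝ) + 1 : ℝ) : ℂ) = (w : ℂ) + (w : ℂ)⁻¹ := by
      have : ((K : ℝ) + 1) = w + w⁻¹ := by
        field_simp
        linarith
      rw [this]; push_cast; ring
    have h := EM_sq n Ψ hlim g ((K : ℝ) + 1) (w : ℂ) (by exact_mod_cast hwpos.ne') hτ
    rw [h, abs_of_pos hW0]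
  have key : W * Z ^ K ≤ Q * Q ^ K := by
    rw [hW, hZ, hQ, ← Finset.prod_pow, ← Finset.prod_pow, ← Finset.prod_mul_distrib,
      ← Finset.prod_mul_distrib]
    refine Finset.prod_le_prod (fun k _ => ?_) (fun k _ => ?_)
    · have := hl k; positivity
    · set l := lam (2 * n) k with hlk
      have h0 : 0 < l := hl k
      have hz : 0 < l ^ 2 + 1 := by positivity
      -- Bernoulli
      have hb : 1 + (K : ℝ) * (l / (l ^ 2 + 1)) ≤ (1 + l / (l ^ 2 + 1)) ^ K :=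
        one_add_mul_le_pow (by have : 0 ≤ l / (l ^ 2 + 1) := by positivity
                               linarith) K
      have hb2 : (l ^ 2 + (K + 1) * l + 1) ≤
          (l ^ 2 + l + 1) * (1 + (K : ℝ) * (l / (l ^ 2 + 1))) := by
        have hkk : (0 : ℝ) ≤ K := Nat.cast_nonneg K
        have : (K : ℝ) * l ≤ (l ^ 2 + l + 1) * ((K : ℝ) * (l / (l ^ 2 + 1))) := by
          rw [show (l ^ 2 + l + 1) * ((K : ℝ) * (l / (l ^ 2 + 1))) =
            (K : ℝ) * l * ((l ^ 2 + l + 1) / (l ^ 2 + 1)) by ring]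
          refine le_mul_of_one_le_right (by positivity) ?_
          rw [le_div_iff₀ hz]; linarith
        nlinarith
      have hb3 : (l ^ 2 + 1) ^ K * (1 + l / (l ^ 2 + 1)) ^ K = (l ^ 2 + l + 1) ^ K := by
        rw [← mul_pow]
        congr 1
        field_simp
        ring
      calc (l ^ 2 + (K + 1) * l + 1) * (l ^ 2 + 1) ^ K
          ≤ ((l ^ 2 + l + 1) * (1 + (K : ℝ) * (l / (l ^ 2 + 1)))) * (l ^ 2 + 1) ^ K := by gcongr
        _ ≤ ((l ^ 2 + l + 1) * (1 + l / (l ^ 2 + 1)) ^ K) * (l ^ 2 + 1) ^ K := by gcongr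
        _ = (l ^ 2 + l + 1) * (l ^ 2 + l + 1) ^ K := by rw [mul_assoc, mul_comm (_ ^ K), hb3]
  have hfin : (EM n Ψ g (K + 1) * EM n Ψ g 0 ^ K) ^ 2 ≤ 1 := by
    have h1 : (EM n Ψ g (K + 1) * EM n Ψ g 0 ^ K) ^ 2 * (Q * Q ^ K) = W * Z ^ K := by
      rw [← e0, ← e1]; ring
    have h2 : 0 < Q * Q ^ K := by positivity
    by_contra hc
    have := mul_lt_mul_of_pos_right (not_le.1 hc) h2
    rw [h1, one_mul] at this
    linarith
  exact (abs_le_one_iff_mul_self_le_one.2 (by rw [← sq]; exact hfin) |> abs_le.1).2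

/-- **moments of the number of loops around a gap of the cylinder** -/
theorem EM_le (K : ℕ) (hK : 1 ≤ K) : ∃ C : ℝ, 0 < C ∧ ∀ (n : ℕ) [NeZero n]
    (Ψ : (PX (2 * n) → ℝ) →ₗ[ℝ] ℝ),
    (∀ f : PX (2 * n) → ℝ, ∀ x, Tendsto (fun M : ℕ => (SX (1 / 2) ^ M) f x) atTop (𝓝 (Ψ f))) →
    PX (2 * n) → ∀ g : ℤ,
      Ψ (fun x => Ψ fun y => ((K : ℝ) + 1) ^ mc (toPat x).t (toPat y).t g) ≤
        C * (n : ℝ) ^ ((5 * K / 48 : ℝ)) := by
  obtain ⟨c, C, hc, hC, h⟩ := one_arm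
  refine ⟨(c ^ K)⁻¹, by positivity, fun n _ Ψ hlim x0 g => ?_⟩
  have h1 := (h n Ψ hlim x0 g).1
  have h2 := EM_mul_le n Ψ hlim g K hK
  have hn : (0 : ℝ) < n := by exact_mod_cast Nat.pos_of_ne_zero (NeZero.ne n)
  have h3 : (0 : ℝ) < c * (n : ℝ) ^ (-(5 / 48) : ℝ) := by positivity
  have h4 : (c * (n : ℝ) ^ (-(5 / 48) : ℝ)) ^ K ≤ EM n Ψ g 0 ^ K := by
    refine pow_le_pow_left₀ h3.le ?_ K
    exact h1
  have h5 : 0 ≤ EM n Ψ g (K + 1) := by
    unfold EM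
    exact psi_nonneg hlim x0 _ fun a => psi_nonneg hlim x0 _ fun b => by positivity
  have h6 : EM n Ψ g (K + 1) * (c * (n : ℝ) ^ (-(5 / 48) : ℝ)) ^ K ≤ 1 :=
    (mul_le_mul_of_nonneg_left h4 h5).trans h2
  have h7 : (c * (n : ℝ) ^ (-(5 / 48) : ℝ)) ^ K * ((c ^ K)⁻¹ * (n : ℝ) ^ ((5 * K / 48 : ℝ))) = 1 := by
    rw [mul_pow, ← Real.rpow_mul_natCast hn.le, mul_mul_mul_comm, mul_inv_cancel₀ (by positivity),
      one_mul, ← Real.rpow_add hn]
    rw [show (-(5 / 48) * (K : ℝ) + 5 * K / 48 : ℝ) = 0 by ring, Real.rpow_zero]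
  have h8 : EM n Ψ g (K + 1) = EM n Ψ g (K + 1) * (c * (n : ℝ) ^ (-(5 / 48) : ℝ)) ^ K *
      ((c ^ K)⁻¹ * (n : ℝ) ^ ((5 * K / 48 : ℝ))) := by
    rw [mul_assoc, h7, mul_one]
  calc Ψ (fun x => Ψ fun y => ((K : ℝ) + 1) ^ mc (toPat x).t (toPat y).t g)
      = EM n Ψ g (K + 1) := rfl
    _ = _ := h8
    _ ≤ 1 * ((c ^ K)⁻¹ * (n : ℝ) ^ ((5 * K / 48 : ℝ))) := by gcongr
    _ = _ := one_mul _

end Pool.Agent.H18.Q1
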